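import Pool.Agent.Helper58.KB.Defs

/-!
# Deep holes of a coset for the gauge of the triakis tetrahedron

If a coset `p + L` does not meet the interior of `2 K_Q`, then for each of the four facet types there is a point
`P` of the boundary of `2 K_Q` on a facet of this type, such that `P + L` does not meet the interior of `2 K_Q`.
-/

set_option autoImplicit false

namespace Pool.Agent.Helper58.KB

open Filter Topology

/-- the four sign vectors -/
private def sg30 : Fin 4 → Fin 3 → ℝ := ![![-1, -1, -1], ![-1, 1, 1], ![1, -1, 1], ![1, 1, -1]]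

/-- the twelve forms -/
private def f30 (Q : ℝ) (t : Fin 4) (k : Fin 3) (v : Fin 3 → ℝ) : ℝ :=
  Q * (sg30 t 0 * v 0 + sg30 t 1 * v 1 + sg30 t 2 * v 2) + sg30 t k * v k

private lemma f_add30 (Q : ℝ) (t : Fin 4) (k : Fin 3) (v w : Fin 3 → ℝ) :
    f30 Q t k (v + w) = f30 Q t k v + f30 Q t k w := by
  simp only [f30, Pi.add_apply]; ring

private lemma f_smul30 (Q : ℝ) (t : Fin 4) (k : Fin 3) (r : ℝ) (v : Fin 3 → ℝ) :
    f30 Q t k (r • v) = r * f30 Q t k v := by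
  simp only [f30, Pi.smul_apply, smul_eq_mul]; ring

private lemma f_sub30 (Q : ℝ) (t : Fin 4) (k : Fin 3) (v w : Fin 3 → ℝ) :
    f30 Q t k (v - w) = f30 Q t k v - f30 Q t k w := by
  simp only [f30, Pi.sub_apply]; ring

private noncomputable def G30 (Q : ℝ) (v : Fin 3 → ℝ) : ℝ :=
  Finset.univ.sup' Finset.univ_nonempty (fun tk : Fin 4 × Fin 3 => f30 Q tk.1 tk.2 v)

private lemma G_le30 {Q c : ℝ} {v : Fin 3 → ℝ} : G30 Q v ≤ c ↔ ∀ t k, f30 Q t k v ≤ c := by
  unfold G30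
  rw [Finset.sup'_le_iff]
  exact ⟨fun h t k => h (t, k) (Finset.mem_univ _), fun h tk _ => h tk.1 tk.2⟩

private lemma le_G30 {Q c : ℝ} {v : Fin 3 → ℝ} : c ≤ G30 Q v ↔ ∃ t k, c ≤ f30 Q t k v := by
  unfold G30
  rw [Finset.le_sup'_iff]
  exact ⟨fun ⟨tk, _, h⟩ => ⟨tk.1, tk.2, h⟩, fun ⟨t, k, h⟩ => ⟨(t, k), Finset.mem_univ _, h⟩⟩

private lemma f_le_G30 (Q : ℝ) (v : Fin 3 → ℝ) (t : Fin 4) (k : Fin 3) : f30 Q t k v ≤ G30 Q v :=
  le_G30.2 ⟨t, k, le_rfl⟩

private lemma G_add30 (Q : ℝ) (v w : Fin 3 → ℝ) : G30 Q (v + w) ≤ G30 Q v + G30 Q w := by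
  rw [G_le30]
  intro t k
  rw [f_add30]
  exact add_le_add (f_le_G30 Q v t k) (f_le_G30 Q w t k)

private lemma G_smul30 (Q : ℝ) {r : ℝ} (hr : 0 ≤ r) (v : Fin 3 → ℝ) : G30 Q (r • v) ≤ r * G30 Q v := by
  rw [G_le30]
  intro t k
  rw [f_smul30]
  exact mul_le_mul_of_nonneg_left (f_le_G30 Q v t k) hr

private lemma InK_iff30 {Q s : ℝ} {v : Fin 3 → ℝ} : InK Q s (v 0) (v 1) (v 2) ↔ G30 Q v ≤ s := by
  rw [G_le30]
  constructor
  · rintro ⟨⟨a1, a2, a3⟩, ⟨b1, b2, b3⟩, ⟨c1, c2, c3⟩, ⟨d1, d2, d3⟩⟩ t k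
    fin_cases t <;> fin_cases k <;> simp [f30, sg30] <;> linarith
  · intro h
    refine ⟨⟨?_, ?_, ?_⟩, ⟨?_, ?_, ?_⟩, ⟨?_, ?_, ?_⟩, ⟨?_, ?_, ?_⟩⟩
    · have := h 0 0; simp [f30, sg30] at this; linarith
    · have := h 0 1; simp [f30, sg30] at this; linarith
    · have := h 0 2; simp [f30, sg30] at this; linarith
    · have := h 1 0; simp [f30, sg30] at this; linarith
    · have := h 1 1; simp [f30, sg30] at this; linarith
    · have := h 1 2; simp [f30, sg30] at this; linarith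
    · have := h 2 0; simp [f30, sg30] at this; linarith
    · have := h 2 1; simp [f30, sg30] at this; linarith
    · have := h 2 2; simp [f30, sg30] at this; linarith
    · have := h 3 0; simp [f30, sg30] at this; linarith
    · have := h 3 1; simp [f30, sg30] at this; linarith
    · have := h 3 2; simp [f30, sg30] at this; linarith

private lemma OutTK_iff30 {Q : ℝ} {v : Fin 3 → ℝ} : OutTK Q (v 0) (v 1) (v 2) ↔ 2 * Q + 2 ≤ G30 Q v := by
  rw [← not_iff_not, not_le]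
  constructor
  · intro h
    by_contra hc
    push Not at hc
    obtain ⟨t, k, htk⟩ := le_G30.1 hc
    apply h
    unfold OutTK
    fin_cases t <;> fin_cases k <;> simp [f30, sg30] at htk
    · left; left; linarith
    · left; right; left; linarith
    · left; right; right; linarith
    · right; left; left; linarith
    · right; left; right; left; linarith
    · right; left; right; right; linarith
    · right; right; left; left; linarith
    · right; right; left; right; left; linarith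
    · right; right; left; right; right; linarith
    · right; right; right; left; linarith
    · right; right; right; right; left; linarith
    · right; right; right; right; right; linarith
  · intro h hc
    have key : ∀ t k, f30 Q t k v < 2 * Q + 2 := fun t k => lt_of_le_of_lt (f_le_G30 Q v t k) h
    rcases hc with (h1 | h1 | h1) | (h1 | h1 | h1) | (h1 | h1 | h1) | (h1 | h1 | h1)
    · have := key 0 0; simp [f30, sg30] at this; linarith
    · have := key 0 1; simp [f30, sg30] at this; linarith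
    · have := key 0 2; simp [f30, sg30] at this; linarith
    · have := key 1 0; simp [f30, sg30] at this; linarith
    · have := key 1 1; simp [f30, sg30] at this; linarith
    · have := key 1 2; simp [f30, sg30] at this; linarith
    · have := key 2 0; simp [f30, sg30] at this; linarith
    · have := key 2 1; simp [f30, sg30] at this; linarith
    · have := key 2 2; simp [f30, sg30] at this; linarith
    · have := key 3 0; simp [f30, sg30] at this; linarith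
    · have := key 3 1; simp [f30, sg30] at this; linarith
    · have := key 3 2; simp [f30, sg30] at this; linarith

/-- the gauge bounds the coordinates -/
private lemma abs_le30 {Q c : ℝ} (hQ : 1 < Q) {v : Fin 3 → ℝ} (h : G30 Q v ≤ c) (i : Fin 3) :
    |v i| ≤ c / (Q + 1) := by
  rw [G_le30] at h
  have hq : 0 < Q + 1 := by linarith
  have a0 := h 0; have a1 := h 1; have a2 := h 2; have a3 := h 3
  rw [abs_le, ← neg_div, div_le_iff₀ hq, le_div_iff₀ hq]
  fin_cases i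
  · have b0 := a0 0; have b1 := a1 0; have b2 := a2 0; have b3 := a3 0
    simp [f30, sg30] at b0 b1 b2 b3 ⊢
    constructor <;> nlinarith
  · have b0 := a0 1; have b1 := a1 1; have b2 := a2 1; have b3 := a3 1
    simp [f30, sg30] at b0 b1 b2 b3 ⊢
    constructor <;> nlinarith
  · have b0 := a0 2; have b1 := a1 2; have b2 := a2 2; have b3 := a3 2
    simp [f30, sg30] at b0 b1 b2 b3 ⊢
    constructor <;> nlinarith

private lemma G_nonneg30 {Q : ℝ} (hQ : 1 < Q) (v : Fin 3 → ℝ) : 0 ≤ G30 Q v := by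
  have h1 := abs_le30 hQ (le_refl (G30 Q v)) 0
  have h2 := (abs_nonneg _).trans h1
  have hq : 0 < Q + 1 := by linarith
  by_contra hc
  push Not at hc
  have := div_neg_of_neg_of_pos hc hq
  linarith

private lemma sg_abs30 (t : Fin 4) (k : Fin 3) : |sg30 t k| ≤ 1 := by
  fin_cases t <;> fin_cases k <;> simp [sg30]

private lemma G_norm30 {Q : ℝ} (hQ : 1 < Q) (v : Fin 3 → ℝ) : G30 Q v ≤ (3 * Q + 1) * ‖v‖ := by
  rw [G_le30]
  intro t k
  have h : ∀ i, sg30 t i * v i ≤ ‖v‖ := by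
    intro i
    calc sg30 t i * v i ≤ |sg30 t i * v i| := le_abs_self _
      _ = |sg30 t i| * |v i| := abs_mul _ _
      _ ≤ 1 * |v i| := mul_le_mul_of_nonneg_right (sg_abs30 t i) (abs_nonneg _)
      _ = ‖v i‖ := by rw [one_mul, Real.norm_eq_abs]
      _ ≤ ‖v‖ := norm_le_pi_norm v i
  unfold f30
  have h0 := h 0; have h1 := h 1; have h2 := h 2; have hk := h k
  nlinarith [norm_nonneg v]

private lemma fin30 {Q : ℝ} (hQ : 1 < Q) (L : Submodule ℤ (Fin 3 → ℝ)) [DiscreteTopology L]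
    (p : Fin 3 → ℝ) (c : ℝ) : {u : Fin 3 → ℝ | u ∈ L ∧ G30 Q (p + u) ≤ c}.Finite := by
  have hcl : IsClosed (L : Set (Fin 3 → ℝ)) := by
    have : DiscreteTopology L.toAddSubgroup := inferInstanceAs (DiscreteTopology L)
    exact AddSubgroup.isClosed_of_discrete (H := L.toAddSubgroup)
  have hdisc : IsDiscrete (L : Set (Fin 3 → ℝ)) := ⟨inferInstanceAs (DiscreteTopology L)⟩
  have hfin : (Metric.closedBall (-p) (|c| / (Q + 1)) ∩ (L : Set (Fin 3 → ℝ))).Finite :=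
    Metric.finite_isBounded_inter_isClosed hdisc Metric.isBounded_closedBall hcl
  have hq : 0 < Q + 1 := by linarith
  refine hfin.subset fun u hu => ⟨?_, hu.1⟩
  rw [mem_closedBall_iff_norm, sub_neg_eq_add, add_comm, pi_norm_le_iff_of_nonneg (by positivity)]
  intro i
  rw [Real.norm_eq_abs]
  exact (abs_le30 hQ hu.2 i).trans (div_le_div_of_nonneg_right (le_abs_self c) hq.le)

/-- A representative of smallest gauge in a coset of a lattice. -/
private lemma minrep30 {Q : ℝ} (hQ : 1 < Q) (L : Submodule ℤ (Fin 3 → ℝ)) [DiscreteTopology L]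
    (p : Fin 3 → ℝ) : ∃ u ∈ L, ∀ v ∈ L, G30 Q (p + u) ≤ G30 Q (p + v) := by
  obtain ⟨u, hu, hmin⟩ := Set.exists_min_image _ (fun v => G30 Q (p + v)) (fin30 hQ L p (G30 Q p))
    ⟨0, L.zero_mem, by rw [add_zero]⟩
  refine ⟨u, hu.1, fun v hv => ?_⟩
  by_cases h : G30 Q (p + v) ≤ G30 Q p
  · exact hmin v ⟨hv, h⟩
  · push Not at h
    have h0 := hmin 0 ⟨L.zero_mem, by rw [add_zero]⟩
    simp only [add_zero] at h0
    linarith

/-- The deepest hole. -/
private lemma deepest30 {Q : ℝ} (hQ : 1 < Q) (L : Submodule ℤ (Fin 3 → ℝ)) [DiscreteTopology L]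
    [IsZLattice ℝ L] : ∃ (c : Fin 3 → ℝ) (M : ℝ), (∀ u ∈ L, M ≤ G30 Q (c + u)) ∧
      ∀ v, ∃ u ∈ L, G30 Q (v + u) ≤ M := by
  choose r hr hmin using minrep30 hQ L
  let φ : (Fin 3 → ℝ) → ℝ := fun v => G30 Q (v + r v)
  have h0 : (0 : ℝ) ≤ 3 * Q + 1 := by linarith
  have hlip : LipschitzWith ⟨3 * Q + 1, h0⟩ φ := by
    refine LipschitzWith.of_le_add_mul _ fun x y => ?_
    show G30 Q (x + r x) ≤ G30 Q (y + r y) + (3 * Q + 1) * dist x y
    calc G30 Q (x + r x) ≤ G30 Q (x + r y) := hmin x _ (hr y)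
      _ = G30 Q ((y + r y) + (x - y)) := by congr 1; abel
      _ ≤ G30 Q (y + r y) + G30 Q (x - y) := G_add30 _ _ _
      _ ≤ G30 Q (y + r y) + (3 * Q + 1) * dist x y := by
        rw [dist_eq_norm]
        exact add_le_add_right (G_norm30 hQ _) _
  let b := (Module.Free.chooseBasis ℤ L).ofZLatticeBasis ℝ L
  have hb : Submodule.span ℤ (Set.range b) = L := Module.Basis.ofZLatticeBasis_span ℝ L _
  obtain ⟨c, _, hc⟩ := (isCompact_closedBall (0 : Fin 3 → ℝ) (∑ i, ‖b i‖)).exists_isMaxOn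
    ⟨0, Metric.mem_closedBall_self (Finset.sum_nonneg fun i _ => norm_nonneg _)⟩ hlip.continuous.continuousOn
  refine ⟨c, φ c, fun u hu => hmin c u hu, fun v => ?_⟩
  have h1 : ZSpan.fract b v ∈ Metric.closedBall (0 : Fin 3 → ℝ) (∑ i, ‖b i‖) := by
    rw [mem_closedBall_zero_iff]
    exact ZSpan.norm_fract_le b v
  have h2 : φ (ZSpan.fract b v) ≤ φ c := hc h1
  have h3 : (ZSpan.floor b v : Fin 3 → ℝ) ∈ L := hb.le (ZSpan.floor b v).2
  refine ⟨-(ZSpan.floor b v : Fin 3 → ℝ) + r (ZSpan.fract b v), L.add_mem (L.neg_mem h3) (hr _), ?_⟩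
  have h4 : v + (-(ZSpan.floor b v : Fin 3 → ℝ) + r (ZSpan.fract b v)) =
      ZSpan.fract b v + r (ZSpan.fract b v) := by
    rw [ZSpan.fract_apply]; abel
  rw [h4]
  exact h2

private lemma f_other30 {Q : ℝ} {n t : Fin 4} (h : t ≠ n) (k : Fin 3) : f30 Q t k (sg30 n) ≤ -Q + 1 := by
  fin_cases n <;> fin_cases t <;> first | exact absurd rfl h | (fin_cases k <;> simp [f30, sg30])

private lemma G_sg30 {Q : ℝ} (hQ : 1 < Q) (n : Fin 4) : G30 Q (sg30 n) ≤ 3 * Q + 1 := by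
  have h := G_norm30 hQ (sg30 n)
  have h2 : ‖sg30 n‖ ≤ 1 := by
    rw [pi_norm_le_iff_of_nonneg zero_le_one]
    intro i
    rw [Real.norm_eq_abs]
    exact sg_abs30 n i
  nlinarith

/-- In the coset of the deepest hole every type of form is active at some point of smallest gauge. -/
private lemma active30 {Q : ℝ} (hQ : 1 < Q) (L : Submodule ℤ (Fin 3 → ℝ)) [DiscreteTopology L]
    {c : Fin 3 → ℝ} {M : ℝ} (h1 : ∀ u ∈ L, M ≤ G30 Q (c + u)) (h2 : ∀ v, ∃ u ∈ L, G30 Q (v + u) ≤ M)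
    (n : Fin 4) : ∃ u ∈ L, G30 Q (c + u) ≤ M ∧ ∃ k, M ≤ f30 Q n k (c + u) := by
  by_contra hcon
  push Not at hcon
  have hq : 0 < 3 * Q + 1 := by linarith
  have e1 : ∀ᶠ ε in 𝓝[>] (0 : ℝ), ∀ u ∈ {u : Fin 3 → ℝ | u ∈ L ∧ G30 Q (c + u) ≤ M + 1},
      M < G30 Q (c + u) → M < G30 Q (c + u) - ε * (3 * Q + 1) := by
    rw [Filter.eventually_all_finite (fin30 hQ L c (M + 1))]
    intro u _
    by_cases hu : M < G30 Q (c + u)
    · have ht : Tendsto (fun ε : ℝ => G30 Q (c + u) - ε * (3 * Q + 1)) (𝓝[>] (0 : ℝ))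
          (𝓝 (G30 Q (c + u) - 0 * (3 * Q + 1))) :=
        ((continuous_const.sub (continuous_id.mul continuous_const)).tendsto 0).mono_left nhdsWithin_le_nhds
      rw [zero_mul, sub_zero] at ht
      filter_upwards [ht.eventually (lt_mem_nhds hu)] with ε hε _
      exact hε
    · exact Filter.Eventually.of_forall fun ε h => absurd h hu
  have e2 : ∀ᶠ ε in 𝓝[>] (0 : ℝ), ε < 1 / (3 * Q + 1) := by
    filter_upwards [Ioo_mem_nhdsGT (show (0 : ℝ) < 1 / (3 * Q + 1) by positivity)] with ε hε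
    exact hε.2
  obtain ⟨ε, hε1, hε2, hε3⟩ := (e1.and (e2.and self_mem_nhdsWithin)).exists
  have hε0 : (0 : ℝ) < ε := hε3
  rw [lt_div_iff₀ hq] at hε2
  obtain ⟨u, hu, hle⟩ := h2 (c - ε • sg30 n)
  have hlow : G30 Q (c + u) - ε * (3 * Q + 1) ≤ G30 Q (c - ε • sg30 n + u) := by
    have h3 : G30 Q (c + u) ≤ G30 Q (c - ε • sg30 n + u) + G30 Q (ε • sg30 n) := by
      calc G30 Q (c + u) = G30 Q ((c - ε • sg30 n + u) + ε • sg30 n) := by congr 1; abel
        _ ≤ _ := G_add30 _ _ _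
    have h4 : G30 Q (ε • sg30 n) ≤ ε * (3 * Q + 1) :=
      (G_smul30 Q hε0.le _).trans (mul_le_mul_of_nonneg_left (G_sg30 hQ n) hε0.le)
    linarith
  by_cases hM : M < G30 Q (c + u)
  · by_cases hM1 : G30 Q (c + u) ≤ M + 1
    · have := hε1 u ⟨hu, hM1⟩ hM
      linarith
    · push Not at hM1
      linarith
  · push Not at hM
    obtain ⟨t, k, htk⟩ := le_G30.1 (h1 u hu)
    have htn : t ≠ n := by
      rintro rfl
      exact absurd htk (not_le.2 (hcon u hu hM k))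
    have h5 := f_le_G30 Q (c - ε • sg30 n + u) t k
    rw [f_add30, f_sub30, f_smul30] at h5
    rw [f_add30] at htk
    have h6 := mul_le_mul_of_nonneg_left (f_other30 (Q := Q) htn k) hε0.le
    nlinarith

/-- One facet type. -/
private lemma hole30 {Q : ℝ} (hQ : 1 < Q) (L : Submodule ℤ (Fin 3 → ℝ)) [DiscreteTopology L]
    [IsZLattice ℝ L] (p : Fin 3 → ℝ) (hp : ∀ u ∈ L, 2 * Q + 2 ≤ G30 Q (p + u)) (n : Fin 4) :
    ∃ P : Fin 3 → ℝ, G30 Q P ≤ 2 * Q + 2 ∧ 2 ≤ sg30 n 0 * P 0 + sg30 n 1 * P 1 + sg30 n 2 * P 2 ∧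
      ∀ u ∈ L, 2 * Q + 2 ≤ G30 Q (P + u) := by
  obtain ⟨c, M, h1, h2⟩ := deepest30 hQ L
  have hM : 2 * Q + 2 ≤ M := by
    obtain ⟨u, hu, hle⟩ := h2 p
    exact (hp u hu).trans hle
  obtain ⟨u₀, hu₀, hle, k, hk⟩ := active30 hQ L h1 h2 n
  have hs : 0 < 2 * Q + 2 := by linarith
  have hM0 : 0 < M := hs.trans_le hM
  set w := c + u₀ with hw
  set r := (2 * Q + 2) / M with hrdef
  have hr0 : 0 ≤ r := (div_pos hs hM0).le
  have hr1 : r ≤ 1 := (div_le_one hM0).2 hM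
  have hrM : r * M = 2 * Q + 2 := div_mul_cancel₀ _ hM0.ne'
  have hP : G30 Q (r • w) ≤ 2 * Q + 2 := by
    calc G30 Q (r • w) ≤ r * G30 Q w := G_smul30 Q hr0 _
      _ ≤ r * M := mul_le_mul_of_nonneg_left hle hr0
      _ = 2 * Q + 2 := hrM
  refine ⟨r • w, hP, ?_, ?_⟩
  · have h3 : 2 * Q + 2 ≤ f30 Q n k (r • w) := by
      rw [f_smul30, ← hrM]
      exact mul_le_mul_of_nonneg_left hk hr0
    have h4 : |(r • w) k| ≤ 2 := by
      have := abs_le30 hQ hP k
      rwa [show (2 * Q + 2) / (Q + 1) = 2 by field_simp] at this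
    have h5 : sg30 n k * (r • w) k ≤ 2 := by
      calc sg30 n k * (r • w) k ≤ |sg30 n k * (r • w) k| := le_abs_self _
        _ = |sg30 n k| * |(r • w) k| := abs_mul _ _
        _ ≤ 1 * |(r • w) k| := mul_le_mul_of_nonneg_right (sg_abs30 n k) (abs_nonneg _)
        _ ≤ 2 := by rw [one_mul]; exact h4
    unfold f30 at h3
    have h6 : Q * 2 ≤ Q * (sg30 n 0 * (r • w) 0 + sg30 n 1 * (r • w) 1 + sg30 n 2 * (r • w) 2) := by linarith
    exact le_of_mul_le_mul_left h6 (by linarith)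
  · intro u hu
    have h3 : M ≤ G30 Q (w + u) := by
      rw [hw, add_assoc]
      exact h1 _ (L.add_mem hu₀ hu)
    have h4 : G30 Q (w + u) ≤ G30 Q (r • w + u) + G30 Q ((1 - r) • w) := by
      calc G30 Q (w + u) = G30 Q ((r • w + u) + (1 - r) • w) := by
            congr 1
            rw [sub_smul, one_smul]; abel
        _ ≤ _ := G_add30 _ _ _
    have h5 : G30 Q ((1 - r) • w) ≤ (1 - r) * M :=
      (G_smul30 Q (by linarith) _).trans (mul_le_mul_of_nonneg_left hle (by linarith))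
    nlinarith

/-- Block H: the deep holes of all four types. -/
theorem exists_holes {Q : ℝ} (hQ : 1 < Q) (L : Submodule ℤ (Fin 3 → ℝ)) [DiscreteTopology L]
    [IsZLattice ℝ L] (p : Fin 3 → ℝ) (hp : ∀ u ∈ L, OutTK Q (p 0 + u 0) (p 1 + u 1) (p 2 + u 2)) :
    (∃ P : Fin 3 → ℝ, InK Q (2 * Q + 2) (P 0) (P 1) (P 2) ∧ 2 ≤ -P 0 - P 1 - P 2 ∧
      ∀ u ∈ L, OutTK Q (P 0 + u 0) (P 1 + u 1) (P 2 + u 2)) ∧
    (∃ P : Fin 3 → ℝ, InK Q (2 * Q + 2) (P 0) (P 1) (P 2) ∧ 2 ≤ -P 0 + P 1 + P 2 ∧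
      ∀ u ∈ L, OutTK Q (P 0 + u 0) (P 1 + u 1) (P 2 + u 2)) ∧
    (∃ P : Fin 3 → ℝ, InK Q (2 * Q + 2) (P 0) (P 1) (P 2) ∧ 2 ≤ P 0 - P 1 + P 2 ∧
      ∀ u ∈ L, OutTK Q (P 0 + u 0) (P 1 + u 1) (P 2 + u 2)) ∧
    (∃ P : Fin 3 → ℝ, InK Q (2 * Q + 2) (P 0) (P 1) (P 2) ∧ 2 ≤ P 0 + P 1 - P 2 ∧
      ∀ u ∈ L, OutTK Q (P 0 + u 0) (P 1 + u 1) (P 2 + u 2)) := by
  have hp' : ∀ u ∈ L, 2 * Q + 2 ≤ G30 Q (p + u) := fun u hu => OutTK_iff30.1 (hp u hu)
  have key := fun n => hole30 hQ L p hp' n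
  refine ⟨?_, ?_, ?_, ?_⟩
  · obtain ⟨P, h1, h2, h3⟩ := key 0
    refine ⟨P, InK_iff30.2 h1, ?_, fun u hu => OutTK_iff30.2 (h3 u hu)⟩
    simp [sg30] at h2; linarith
  · obtain ⟨P, h1, h2, h3⟩ := key 1
    refine ⟨P, InK_iff30.2 h1, ?_, fun u hu => OutTK_iff30.2 (h3 u hu)⟩
    simp [sg30] at h2; linarith
  · obtain ⟨P, h1, h2, h3⟩ := key 2
    refine ⟨P, InK_iff30.2 h1, ?_, fun u hu => OutTK_iff30.2 (h3 u hu)⟩
    simp [sg30] at h2; linarith
  · obtain ⟨P, h1, h2, h3⟩ := key 3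
    refine ⟨P, InK_iff30.2 h1, ?_, fun u hu => OutTK_iff30.2 (h3 u hu)⟩
    simp [sg30] at h2; linarith

end Pool.Agent.Helper58.KB
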